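import Mathlib
import Pool.Agent.W187.WQ.Fx3
import Pool.Agent.W22.WQ.Dot

/-!
# WQ-APR: approximation of the rows of the matrix
-/

open MeasureTheory Set
open Pool.Agent.W187.WP Pool.Agent.W187.WQ

namespace Pool.Agent.W613.WQ

theorem apx_mono {D ε ε' : ℝ} {f : ℕ → ℝ} {l : List ℤ} {k : ℕ} (h : Apx D ε f k l)
    (hε : ε ≤ ε') : Apx D ε' f k l := by
  induction l generalizing k with
  | nil => trivial
  | cons a l ih => exact ⟨h.1.trans hε, ih h.2⟩

theorem apx_congr {D ε : ℝ} {f g : ℕ → ℝ} {l : List ℤ} {k : ℕ} (h : Apx D ε f k l)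
    (hfg : ∀ j, f j = g j) : Apx D ε g k l := by
  have : f = g := funext hfg
  rwa [← this]

theorem apx_getD {D ε : ℝ} {f : ℕ → ℝ} {l : List ℤ} {k : ℕ} (h : Apx D ε f k l) (i : ℕ)
    (hi : i < l.length) : |D * f (k + i) - ((l.getD i 0 : ℤ) : ℝ)| ≤ ε := by
  induction l generalizing k i with
  | nil => simp at hi
  | cons a l ih =>
    cases i with
    | zero => simpa using h.1
    | succ i =>
      have h2 := ih h.2 i (by simpa using hi)
      rw [show k + (i + 1) = k + 1 + i by ring]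
      simpa using h2

theorem apx_of_getD {D ε : ℝ} {f : ℕ → ℝ} : ∀ (l : List ℤ) (k : ℕ),
    (∀ i < l.length, |D * f (k + i) - ((l.getD i 0 : ℤ) : ℝ)| ≤ ε) → Apx D ε f k l
  | [], _, _ => trivial
  | a :: l, k, h => by
    refine ⟨?_, apx_of_getD l (k + 1) fun i hi => ?_⟩
    · simpa using h 0 (by simp)
    · have h2 := h (i + 1) (by simpa using hi)
      rw [show k + 1 + i = k + (i + 1) by ring]
      simpa using h2

theorem apx_drop {D ε : ℝ} {f : ℕ → ℝ} (e : ℕ) {l : List ℤ} {k : ℕ} (h : Apx D ε f k l) :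
    Apx D ε f (k + e) (l.drop e) := by
  induction e generalizing k l with
  | zero => simpa using h
  | succ e ih =>
    cases l with
    | nil => simp [Apx]
    | cons a l =>
      rw [show k + (e + 1) = k + 1 + e by ring, List.drop_succ_cons]
      exact ih h.2

theorem apx_shift {D ε : ℝ} {f : ℕ → ℝ} (i : ℕ) : ∀ (l : List ℤ) (k : ℕ),
    Apx D ε f (i + k) l → Apx D ε (fun j => f (i + j)) k l
  | [], _, _ => trivial
  | _ :: l, k, h => ⟨h.1, apx_shift i l (k + 1) h.2⟩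

theorem apx_drop' {D ε : ℝ} {f : ℕ → ℝ} (i : ℕ) {l : List ℤ} (h : Apx D ε f 0 l) :
    Apx D ε (fun j => f (i + j)) 0 (l.drop i) := by
  have h1 := apx_drop i h
  rw [zero_add] at h1
  exact apx_shift i (l.drop i) 0 h1

theorem apx_addz {D ε1 ε2 : ℝ} {f g : ℕ → ℝ} : ∀ (p q : List ℤ) (k : ℕ),
    Apx D ε1 f k p → Apx D ε2 g k q → Apx D (ε1 + ε2) (fun j => f j + g j) k (addz p q)
  | [], _, _, _, _ => by simp [addz, Apx]
  | _ :: _, [], _, _, _ => by simp [addz, Apx]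
  | a :: p, b :: q, k, hp, hq => by
    refine ⟨?_, apx_addz p q (k + 1) hp.2 hq.2⟩
    have e : D * (f k + g k) - ((a + b : ℤ) : ℝ) = (D * f k - a) + (D * g k - b) := by
      push_cast; ring
    rw [e]
    exact (abs_add_le _ _).trans (add_le_add hp.1 hq.1)

theorem apx_scl {D ε : ℝ} {f : ℕ → ℝ} {c d : ℤ} (hd : 0 < d) : ∀ (l : List ℤ) (k : ℕ),
    Apx D ε f k l → Apx D (|(c : ℝ) / (d : ℝ)| * ε + 1) (fun j => (c : ℝ) / (d : ℝ) * f j) k
      (scl c d l)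
  | [], _, _ => trivial
  | a :: l, k, h => by
    refine ⟨?_, apx_scl hd l (k + 1) h.2⟩
    have h1 := Pool.Agent.W22.WQ.floor_err (c * a) d hd
    have e : D * ((c : ℝ) / (d : ℝ) * f k) - ((c * a / d : ℤ) : ℝ) =
        (c : ℝ) / (d : ℝ) * (D * f k - a) +
          (((c * a : ℤ) : ℝ) / (d : ℝ) - ((c * a / d : ℤ) : ℝ)) := by
      push_cast; ring
    rw [e]
    refine (abs_add_le _ _).trans (add_le_add ?_ h1)
    rw [abs_mul]
    exact mul_le_mul_of_nonneg_left h.1 (abs_nonneg _)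

theorem apx_tail {D ε : ℝ} {f : ℕ → ℝ} {l : List ℤ} {k : ℕ} (h : Apx D ε f k l) :
    Apx D ε f (k + 1) l.tail := by
  cases l with
  | nil => trivial
  | cons a l => exact h.2

theorem apx_mlsD (hdot : S_DOT) (D : ℤ) (ef eg M S : ℝ) (f g : ℕ → ℝ) (F : List ℤ) (hD : 0 < D)
    (hef : 0 ≤ ef) (heg : 0 ≤ eg) (hM : ∀ j, |g j| ≤ M) (hF : Apx D ef f 0 F)
    (hS : ((nm1 F : ℤ) : ℝ) ≤ S) : ∀ (n : ℕ) (m : List ℤ) (k : ℕ), Apx D eg g k m →
    F.length + n ≤ m.length + 1 →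
    Apx D (S * eg / D + M * ef * F.length + 1)
      (fun j => ∑ i ∈ Finset.range F.length, f i * g (j + i)) k (mlsD D F n m)
  | 0, _, _, _, _ => trivial
  | n + 1, m, k, hm, hlen => by
    refine ⟨?_, apx_mlsD hdot D ef eg M S f g F hD hef heg hM hF hS n m.tail (k + 1)
      (apx_tail hm) ?_⟩
    · have h := hdot D ef eg M S f g F m 0 k hD hef heg hM hF hm hS (by omega)
      simpa using h
    · rw [List.length_tail]
      omega

theorem sum_abs_le {D : ℝ} (hD : 0 < D) {ε : ℝ} {f : ℕ → ℝ} : ∀ (l : List ℤ) (k : ℕ),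
    Apx D ε f k l →
    D * (∑ i ∈ Finset.range l.length, |f (k + i)|) ≤ ((nm1 l : ℤ) : ℝ) + ε * l.length
  | [], _, _ => by simp [nm1]
  | a :: l, k, h => by
    have ih := sum_abs_le hD l (k + 1) h.2
    rw [List.length_cons, Finset.sum_range_succ']
    have e1 : ∑ i ∈ Finset.range l.length, |f (k + (i + 1))| =
        ∑ i ∈ Finset.range l.length, |f (k + 1 + i)| :=
      Finset.sum_congr rfl fun i _ => by rw [show k + (i + 1) = k + 1 + i by ring]
    have e2 : ((nm1 (a :: l) : ℤ) : ℝ) = |(a : ℝ)| + ((nm1 l : ℤ) : ℝ) := by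
      have : nm1 (a :: l) = |a| + nm1 l := rfl
      rw [this]
      push_cast
      ring
    rw [e1, e2, mul_add, add_zero]
    have h1 : D * |f k| ≤ |(a : ℝ)| + ε := by
      have h2 : D * |f k| = |D * f k| := by rw [abs_mul, abs_of_pos hD]
      rw [h2]
      have h3 : D * f k = (D * f k - a) + a := by ring
      rw [h3]
      refine (abs_add_le _ _).trans ?_
      have := h.1
      linarith
    push_cast
    linarith

theorem abs_mu_le (e j : ℕ) : |mu e j| ≤ 1 := by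
  unfold mu
  have h : (1 : ℝ) ≤ 2 * ((e : ℝ) + (j : ℝ)) + 1 := by
    have := (Nat.cast_nonneg e : (0 : ℝ) ≤ e)
    have := (Nat.cast_nonneg j : (0 : ℝ) ≤ j)
    linarith
  rw [abs_of_nonneg (by positivity), div_le_one (by linarith)]
  exact h

theorem abs_uu_le (e m j : ℕ) : |uu e m j| ≤ m := by
  unfold uu
  refine (Finset.abs_sum_le_sum_abs _ _).trans ?_
  calc ∑ i ∈ Finset.range m, |mu e (j + (i + 1)) / (2 * ((i : ℝ) + 1))| ≤
      ∑ _i ∈ Finset.range m, (1 : ℝ) := by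
        refine Finset.sum_le_sum fun i _ => ?_
        have hi := (Nat.cast_nonneg i : (0 : ℝ) ≤ i)
        rw [abs_div, abs_of_nonneg (by positivity : (0 : ℝ) ≤ 2 * ((i : ℝ) + 1)),
          div_le_one (by positivity)]
        have := abs_mu_le e (j + (i + 1))
        linarith
    _ = m := by simp

theorem usl_length (m : ℕ) : ∀ (n : ℕ) (l : List ℤ), (usl m n l).length = n
  | 0, _ => rfl
  | n + 1, l => by rw [usl, List.length_cons, usl_length m n l.tail]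

theorem muL_length (D : ℤ) (e : ℕ) : ∀ (n k : ℕ), (muL D e n k).length = n
  | 0, _ => rfl
  | n + 1, k => by rw [muL, List.length_cons, muL_length D e n (k + 1)]

theorem sum_ext {f : ℕ → ℝ} {N L : ℕ} (hNL : N ≤ L) (h : ∀ j, N ≤ j → f j = 0) (g : ℕ → ℝ) :
    ∑ j ∈ Finset.range N, f j * g j = ∑ j ∈ Finset.range L, f j * g j := by
  refine Finset.sum_subset (Finset.range_subset_range.2 hNL) fun j _ hj => ?_
  rw [Finset.mem_range, not_lt] at hj
  rw [h j hj, zero_mul]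

theorem apx_sumT (c : CG) (E : ℝ) (hD : 0 < c.D) (hE : 0 ≤ E) (k : ℕ) (hk : k < c.n) (b : ℝ)
    (f : ℕ → ℝ) (base : List ℤ) (hb : Apx c.D b f 0 base) (ts : List TB) (tr : List TR)
    (h : List.Forall₂ (TOK c.D E c.n) ts tr) :
    Apx c.D (b + ts.length * (4 * E + 1)) (fun l => f l + (tr.map (fun r => r.q * r.F k l)).sum) 0
      (sumT k base ts) := by
  induction h with
  | nil =>
    simp only [List.length_nil, Nat.cast_zero, zero_mul, add_zero, List.map_nil, List.sum_nil]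
    exact hb
  | @cons t r ts tr hr _ ih =>
    obtain ⟨h1, h2, h3, h4⟩ := hr
    have e1 := apx_scl (c := t.cn) h1 _ 0 (h4 k hk)
    have e2 := apx_addz _ _ 0 e1 ih
    refine apx_congr (apx_mono e2 ?_) fun l => ?_
    · rw [h2]
      have : |r.q| * E ≤ 4 * E := mul_le_mul_of_nonneg_right h3 hE
      rw [List.length_cons]
      push_cast
      nlinarith
    · rw [h2, List.map_cons, List.sum_cons]
      ring

theorem ccq_bound {D : ℤ} (hD : 0 < D) {q : ℚ} {z : ℤ} (h1 : |(D : ℚ) * q - (z : ℚ)| ≤ 1)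
    (h2 : |z| ≤ 4 * D) : |(D : ℝ) * (q : ℝ) - (z : ℝ)| ≤ 1 ∧ |(q : ℝ)| ≤ 5 := by
  have h3 : |(D : ℝ) * (q : ℝ) - (z : ℝ)| ≤ 1 := by exact_mod_cast h1
  have hD1 : (1 : ℝ) ≤ (D : ℝ) := by exact_mod_cast hD
  have h4 : |(z : ℝ)| ≤ 4 * (D : ℝ) := by exact_mod_cast h2
  refine ⟨h3, ?_⟩
  have h5 : (D : ℝ) * |(q : ℝ)| ≤ 1 + 4 * D := by
    have e : (D : ℝ) * |(q : ℝ)| = |(D : ℝ) * (q : ℝ)| := by
      rw [abs_mul, abs_of_nonneg (by linarith : (0 : ℝ) ≤ (D : ℝ))]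
    rw [e, show (D : ℝ) * (q : ℝ) = ((D : ℝ) * (q : ℝ) - (z : ℝ)) + z by ring]
    exact (abs_add_le _ _).trans (add_le_add h3 h4)
  have h6 : (D : ℝ) * |(q : ℝ)| ≤ D * 5 := by linarith
  exact le_of_mul_le_mul_left h6 (by linarith)

/-- the rank one rows -/
theorem apx_ccq {D : ℤ} (hD : 0 < D) {a : ℚ} (ha : 0 ≤ a) (ha2 : a ≤ 2) (sg : ℤ)
    (hsg : sg = 2 ∨ sg = -2) (w : ℕ → ℚ) (CI : List ℤ) (n k : ℕ) (hk : k < n)
    (hlen : CI.length = n) (hw : ∀ l < n, |(D : ℚ) * w l - ((CI.getD l 0 : ℤ) : ℚ)| ≤ 1)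
    (hb : ∀ l < n, |CI.getD l 0| ≤ 4 * D) :
    Apx D 37 (fun l => (sg : ℝ) * (a : ℝ) * (((w k : ℚ) : ℝ) * ((w l : ℚ) : ℝ))) 0
      (scl (sg * a.num * CI.getD k 0) (a.den * D) CI) := by
  have hD' : (0 : ℝ) < (D : ℝ) := by exact_mod_cast hD
  obtain ⟨hk1, hk2⟩ := ccq_bound hD (hw k hk) (hb k hk)
  have h0 : Apx D 1 (fun l => ((w l : ℚ) : ℝ)) 0 CI := by
    refine apx_of_getD CI 0 fun i hi => ?_
    rw [zero_add]
    exact (ccq_bound hD (hw i (hlen ▸ hi)) (hb i (hlen ▸ hi))).1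
  have hd : 0 < (a.den : ℤ) * D := mul_pos (by exact_mod_cast a.den_pos) hD
  have h1 := apx_scl (c := sg * a.num * CI.getD k 0) hd CI 0 h0
  have e1 : (((sg * a.num * CI.getD k 0 : ℤ) : ℝ)) / (((a.den : ℤ) * D : ℤ) : ℝ) =
      (sg : ℝ) * (a : ℝ) * (((CI.getD k 0 : ℤ) : ℝ) / D) := by
    have ea : (a : ℝ) = (a.num : ℝ) / (a.den : ℝ) := by
      exact_mod_cast (Rat.num_div_den a).symm
    rw [ea]
    push_cast
    ring
  rw [e1] at h1
  have ha' : (0 : ℝ) ≤ (a : ℝ) := by exact_mod_cast ha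
  have ha2' : (a : ℝ) ≤ 2 := by exact_mod_cast ha2
  have hsg' : |(sg : ℝ)| = 2 := by
    rcases hsg with rfl | rfl <;> norm_num
  have hCk : |((CI.getD k 0 : ℤ) : ℝ) / D| ≤ 4 := by
    rw [abs_div, abs_of_pos hD', div_le_iff₀ hD']
    exact_mod_cast hb k hk
  have hq : |(sg : ℝ) * (a : ℝ) * (((CI.getD k 0 : ℤ) : ℝ) / D)| ≤ 16 := by
    rw [abs_mul, abs_mul, hsg', abs_of_nonneg ha']
    nlinarith [abs_nonneg (((CI.getD k 0 : ℤ) : ℝ) / D)]
  refine apx_of_getD _ 0 fun i hi => ?_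
  have hi' : i < n := by
    rw [scl, List.length_map, hlen] at hi
    exact hi
  have h2 := apx_getD h1 i hi
  simp only [zero_add] at h2 ⊢
  obtain ⟨-, hi2⟩ := ccq_bound hD (hw i hi') (hb i hi')
  set v : ℝ := (((scl (sg * a.num * CI.getD k 0) (a.den * D) CI).getD i 0 : ℤ) : ℝ) with hv
  have e2 : (D : ℝ) * ((sg : ℝ) * (a : ℝ) * (((w k : ℚ) : ℝ) * ((w i : ℚ) : ℝ))) - v =
      ((D : ℝ) * ((sg : ℝ) * (a : ℝ) * (((CI.getD k 0 : ℤ) : ℝ) / D) * ((w i : ℚ) : ℝ)) - v) +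
      (sg : ℝ) * (a : ℝ) * ((D : ℝ) * ((w k : ℚ) : ℝ) - ((CI.getD k 0 : ℤ) : ℝ)) *
        ((w i : ℚ) : ℝ) := by
    field_simp
    ring
  rw [e2]
  refine (abs_add_le _ _).trans ?_
  have h3 : |(sg : ℝ) * (a : ℝ) * ((D : ℝ) * ((w k : ℚ) : ℝ) - ((CI.getD k 0 : ℤ) : ℝ)) *
        ((w i : ℚ) : ℝ)| ≤ 20 := by
    rw [abs_mul, abs_mul, abs_mul, hsg', abs_of_nonneg ha']
    have e3 : 2 * (a : ℝ) * |(D : ℝ) * ((w k : ℚ) : ℝ) - ((CI.getD k 0 : ℤ) : ℝ)| ≤ 4 := by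
      nlinarith [abs_nonneg ((D : ℝ) * ((w k : ℚ) : ℝ) - ((CI.getD k 0 : ℤ) : ℝ))]
    calc 2 * (a : ℝ) * |(D : ℝ) * ((w k : ℚ) : ℝ) - ((CI.getD k 0 : ℤ) : ℝ)| * |((w i : ℚ) : ℝ)| ≤
        4 * 5 := mul_le_mul e3 hi2 (abs_nonneg _) (by norm_num)
      _ = 20 := by norm_num
  linarith

theorem apr_ok : S_APR := by
  intro p c B dn dd lm lu E ts tr hdot hmu hus hC hP hM ha ha2 hdd hdn hdnd hE hzy hts k hk
  -- unpack the checks
  unfold chkC at hC
  simp only [Bool.and_eq_true, decide_eq_true_eq, List.all_eq_true, List.mem_range] at hC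
  obtain ⟨⟨⟨⟨⟨⟨⟨⟨⟨⟨⟨hD, he⟩, hm⟩, hnLr⟩, hZl⟩, hYl⟩, hHl⟩, hRl⟩, hCIl⟩, hSIl⟩, hB⟩, hrow⟩ := hC
  unfold chkP at hP
  simp only [Bool.and_eq_true, decide_eq_true_eq, List.all_eq_true, List.mem_range] at hP
  unfold chkM at hM
  simp only [Bool.and_eq_true, decide_eq_true_eq] at hM
  obtain ⟨⟨⟨⟨⟨⟨⟨hMU, hUL⟩, hAL⟩, hl1⟩, hl2⟩, hl3⟩, hl4⟩, hH⟩ := hM
  rw [hm] at hUL hAL hl1 hl2
  have hD' : (0 : ℝ) < (c.D : ℝ) := by exact_mod_cast hD
  have hD1 : (1 : ℝ) ≤ (c.D : ℝ) := by exact_mod_cast hD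
  have hB' : (0 : ℝ) ≤ (B : ℝ) := by exact_mod_cast hB
  -- the moment lists
  have aMU : Apx c.D 1 (mu c.e) 0 c.MU := by
    rw [← hMU]
    exact hmu c.D c.e lm 0 hD
  have lMU : c.MU.length = lm := by rw [← hMU, muL_length]
  have lUL : c.UL.length = lu := by rw [← hUL, usl_length]
  have aUL : Apx c.D (3 * (p.m : ℝ) / 2) (uu c.e p.m) 0 c.UL := by
    have h := hus c.D 1 (mu c.e) p.m lu c.MU hD zero_le_one aMU (by omega)
    rw [hUL] at h
    refine apx_congr (apx_mono h (le_of_eq (by ring))) fun j => rfl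
  have aAL : Apx c.D (p.m * ((3 * (p.m : ℝ) / 2) / 2 + 1)) (aa c.e p.m) 0 c.AL := by
    have h := hus c.D (3 * (p.m : ℝ) / 2) (uu c.e p.m) p.m (2 * c.n) c.UL hD (by positivity) aUL
      (by omega)
    rw [hAL] at h
    exact h
  -- the data of one index
  have dat : ∀ l < c.n, (c.Z.getD l []).length ≤ c.Lr ∧ (c.Y.getD l []).length ≤ c.Lr ∧
      ((nm1 (c.Z.getD l []) : ℤ) : ℝ) ≤ B * c.D ∧ ((nm1 (c.Y.getD l []) : ℤ) : ℝ) ≤ B * c.D ∧
      |c.CI.getD l 0| ≤ 4 * c.D ∧ |c.SI.getD l 0| ≤ 4 * c.D := by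
    intro l hl
    have h := hrow l hl
    obtain ⟨⟨⟨⟨⟨⟨⟨⟨⟨-, -⟩, h3⟩, h4⟩, h5⟩, h6⟩, -⟩, -⟩, h9⟩, h10⟩ := h
    exact ⟨h4, h3, by exact_mod_cast h6, by exact_mod_cast h5, h9, h10⟩
  obtain ⟨hZk, hYk, hnZ, hnY, hCk, hSk⟩ := dat k hk
  obtain ⟨aZ, aY, zZ, zY⟩ := hzy k hk
  -- row 1
  have r1 := apx_mlsD hdot c.D 1 1 1 (B * c.D) (zkr p c.e k) (mu c.e) (c.Z.getD k []) hD
    zero_le_one zero_le_one (abs_mu_le c.e) aZ hnZ c.n c.MU 0 aMU (by omega)
  have s1 := apx_scl (c := 2) (d := 1) one_pos _ 0 r1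
  -- row 2
  have s2 := apx_scl (c := 2) (d := 1) one_pos _ 0 (apx_drop' k aUL)
  -- rows 3 and 4
  have s3 := apx_ccq hD ha ha2 2 (Or.inl rfl) (fun l => ccq c.e p.cp l) c.CI c.n k hk hCIl
    (fun l hl => (hP l hl).1) (fun l hl => (dat l hl).2.2.2.2.1)
  have s4 := apx_ccq hD ha ha2 (-2) (Or.inr rfl) (fun l => ccq c.e p.sp l) c.SI c.n k hk hSIl
    (fun l hl => (hP l hl).2) (fun l hl => (dat l hl).2.2.2.2.2)
  -- row 5
  have s5 := apx_scl (c := -2) (d := 1) one_pos _ 0 (apx_drop' k aAL)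
  -- row 6
  have r6 := apx_mlsD hdot c.D 1 (3 * (p.m : ℝ) / 2) p.m (B * c.D) (ykr p c k) (uu c.e p.m)
    (c.Y.getD k []) hD zero_le_one (by positivity) (abs_uu_le c.e p.m) aY hnY c.n c.UL 0 aUL
    (by omega)
  have s6 := apx_scl (c := -4) (d := 1) one_pos _ 0 r6
  -- row 7
  have aH : ∀ l < c.n, Apx c.D (B + c.Lr + 1)
      (fun j => ∑ i ∈ Finset.range c.Lr, ykr p c l i * mu c.e (j + i)) 0 (c.H.getD l []) := by
    intro l hl
    obtain ⟨-, hYl', -, hnYl, -, -⟩ := dat l hl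
    obtain ⟨-, aYl, -, zYl⟩ := hzy l hl
    have h := apx_mlsD hdot c.D 1 1 1 (B * c.D) (ykr p c l) (mu c.e) (c.Y.getD l []) hD
      zero_le_one zero_le_one (abs_mu_le c.e) aYl hnYl c.Lr c.MU 0 aMU (by omega)
    have e1 : c.H.getD l [] = mlsD c.D (c.Y.getD l []) c.Lr c.MU := by
      rw [← hH]
      simp [List.getD_eq_getElem?_getD, List.getElem?_map, List.getElem?_eq_getElem (hYl ▸ hl)]
    rw [e1]
    refine apx_congr (apx_mono h ?_) fun j => ?_
    · have e2 : (B : ℝ) * c.D * 1 / c.D = B := by field_simp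
      rw [e2]
      have e3 : (((c.Y.getD l []).length : ℕ) : ℝ) ≤ c.Lr := by exact_mod_cast hYl'
      linarith
    · exact sum_ext hYl' zYl (fun i => mu c.e (j + i))
  have r7 : Apx c.D (B * (B + c.Lr + 1) + (B + c.Lr) * c.Lr + 1)
      (fun l => ∑ j ∈ Finset.range c.Lr, ykr p c k j *
        (∑ i ∈ Finset.range c.Lr, ykr p c l i * mu c.e (j + i))) 0
      (c.H.map (fun h => doti (c.Y.getD k []) h / c.D)) := by
    refine apx_of_getD _ 0 fun l hl => ?_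
    rw [List.length_map, hHl] at hl
    obtain ⟨-, hYl', -, hnYl, -, -⟩ := dat l hl
    obtain ⟨-, aYl, -, zYl⟩ := hzy l hl
    have hMl : ∀ j, |∑ i ∈ Finset.range c.Lr, ykr p c l i * mu c.e (j + i)| ≤ B + c.Lr := by
      intro j
      rw [← sum_ext hYl' zYl (fun i => mu c.e (j + i))]
      refine (Finset.abs_sum_le_sum_abs _ _).trans ?_
      have h1 := sum_abs_le hD' _ 0 aYl
      simp only [zero_add, one_mul] at h1
      have h2 : ∑ i ∈ Finset.range (c.Y.getD l []).length, |ykr p c l i * mu c.e (j + i)| ≤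
          ∑ i ∈ Finset.range (c.Y.getD l []).length, |ykr p c l i| := by
        refine Finset.sum_le_sum fun i _ => ?_
        rw [abs_mul]
        exact mul_le_of_le_one_right (abs_nonneg _) (abs_mu_le _ _)
      have h3 : (((c.Y.getD l []).length : ℕ) : ℝ) ≤ c.Lr := by exact_mod_cast hYl'
      have h4 : (c.Lr : ℝ) ≤ c.D * c.Lr := by
        have := (Nat.cast_nonneg c.Lr : (0 : ℝ) ≤ c.Lr)
        nlinarith
      have h5 : (c.D : ℝ) * (∑ i ∈ Finset.range (c.Y.getD l []).length, |ykr p c l i|) ≤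
          c.D * (B + c.Lr) := by nlinarith
      exact h2.trans (le_of_mul_le_mul_left h5 hD')
    have hlenH : (c.Y.getD k []).length ≤ (c.H.getD l []).length := by
      have e1 : c.H.getD l [] = mlsD c.D (c.Y.getD l []) c.Lr c.MU := by
        rw [← hH]
        simp [List.getD_eq_getElem?_getD, List.getElem?_map, List.getElem?_eq_getElem (hYl ▸ hl)]
      have e2 : ∀ (n : ℕ) (q m : List ℤ), (mlsD c.D q n m).length = n := by
        intro n
        induction n with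
        | zero => intro q m; rfl
        | succ n ih => intro q m; rw [mlsD, List.length_cons, ih]
      rw [e1, e2]
      exact hYk
    have h := hdot c.D 1 (B + c.Lr + 1) (B + c.Lr) (B * c.D) (ykr p c k)
      (fun j => ∑ i ∈ Finset.range c.Lr, ykr p c l i * mu c.e (j + i)) (c.Y.getD k [])
      (c.H.getD l []) 0 0 hD zero_le_one (by positivity) hMl aY (aH l hl) hnY hlenH
    simp only [zero_add] at h ⊢
    rw [sum_ext hYk zY (fun j => ∑ i ∈ Finset.range c.Lr, ykr p c l i * mu c.e (j + i))] at h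
    have e1 : (c.H.map (fun h => doti (c.Y.getD k []) h / c.D)).getD l 0 =
        doti (c.Y.getD k []) (c.H.getD l []) / c.D := by
      simp [List.getD_eq_getElem?_getD, List.getElem?_map, List.getElem?_eq_getElem (hHl ▸ hl)]
    rw [e1]
    refine h.trans ?_
    have e2 : (B : ℝ) * c.D * (B + c.Lr + 1) / c.D = B * (B + c.Lr + 1) := by field_simp
    rw [e2]
    have e3 : (((c.Y.getD k []).length : ℕ) : ℝ) ≤ c.Lr := by exact_mod_cast hYk
    have e4 : ((B : ℝ) + c.Lr) * 1 * ((c.Y.getD k []).length : ℕ) ≤ (B + c.Lr) * c.Lr := by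
      rw [mul_one]
      exact mul_le_mul_of_nonneg_left e3 (by positivity)
    linarith
  have s7 := apx_scl (c := -2) (d := 1) one_pos _ 0 r7
  -- row 8
  have s8 := apx_scl (c := -2 * dn) (d := dd) hdd _ 0 (apx_drop' k aMU)
  have t := apx_addz _ _ 0 s1 (apx_addz _ _ 0 s2 (apx_addz _ _ 0 s3 (apx_addz _ _ 0 s4
    (apx_addz _ _ 0 s5 (apx_addz _ _ 0 s6 (apx_addz _ _ 0 s7 s8))))))
  have t2 := apx_sumT c E hD hE k hk _ _ _ t ts tr hts
  unfold rowN
  refine apx_congr (apx_mono t2 ?_) fun l => ?_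
  · have hZk' : (((c.Z.getD k []).length : ℕ) : ℝ) ≤ c.Lr := by exact_mod_cast hZk
    have hYk' : (((c.Y.getD k []).length : ℕ) : ℝ) ≤ c.Lr := by exact_mod_cast hYk
    have hm0 : (0 : ℝ) ≤ p.m := Nat.cast_nonneg _
    have q1 : |((2 : ℤ) : ℝ) / ((1 : ℤ) : ℝ)| = 2 := by norm_num
    have q2 : |((-2 : ℤ) : ℝ) / ((1 : ℤ) : ℝ)| = 2 := by norm_num
    have q4 : |((-4 : ℤ) : ℝ) / ((1 : ℤ) : ℝ)| = 4 := by norm_num
    have hdd' : (0 : ℝ) < (dd : ℝ) := by exact_mod_cast hdd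
    have q8 : |((-2 * dn : ℤ) : ℝ) / (dd : ℝ)| ≤ 2 := by
      rw [abs_div, abs_of_pos hdd', div_le_iff₀ hdd']
      have h1 : (0 : ℝ) ≤ (dn : ℝ) := by exact_mod_cast hdn
      have h2 : (dn : ℝ) ≤ (dd : ℝ) := by exact_mod_cast hdnd
      push_cast
      rw [abs_mul, abs_of_nonneg h1]
      norm_num
      linarith
    have w1 : (B : ℝ) * c.D * 1 / c.D = B := by field_simp
    have w6 : (B : ℝ) * c.D * (3 * (p.m : ℝ) / 2) / c.D = B * (3 * (p.m : ℝ) / 2) := by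
      field_simp
    have w7 : (p.m : ℝ) * 1 * ((c.Y.getD k []).length : ℕ) ≤ p.m * c.Lr := by
      rw [mul_one]
      exact mul_le_mul_of_nonneg_left hYk' hm0
    rw [q1, q2, q4, w1, w6]
    unfold eb
    have hts0 : (0 : ℝ) ≤ ts.length * (4 * E + 1) := by positivity
    nlinarith
  · unfold Nb
    rw [sum_ext hZk zZ (fun i => mu c.e (l + i)), sum_ext hYk zY (fun i => uu c.e p.m (l + i))]
    push_cast
    ring

end Pool.Agent.W613.WQ
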